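import Mathlib
import Pool.Agent.Lib.MP_be5e04_al.Defs
import Pool.Agent.Lib.MP_be5e04_al.Struct

set_option autoImplicit false

namespace Pool.Agent.Results.MP_be5e04_al.TwoIdeals

open Pool.Agent.Lib.MP_be5e04_al

universe u

/-- There are (countable, finitely generated) nilpotent groups which are not virtually abelian, and
for every finitely generated nilpotent group `G` which is not virtually abelian, `βG` has at least
two distinct minimal closed right ideals. -/
theorem result :
    (∃ (G : Type) (_ : Group G), Countable G ∧ Group.FG G ∧ Group.IsNilpotent G ∧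
      ¬ IsVirtuallyAbelian G) ∧
    ∀ (G : Type u) [Group G], Group.FG G → Group.IsNilpotent G → ¬ IsVirtuallyAbelian G →
      ∃ R₁ R₂ : Set (Ultrafilter G),
        IsMinimalClosedRightIdeal R₁ ∧ IsMinimalClosedRightIdeal R₂ ∧ R₁ ≠ R₂ :=
  ⟨⟨Heis, inferInstance, inferInstance, heis_fg, inferInstance, heis_not_va⟩,
    fun G _ hfg hnil hva => exists_two_of_twoCS (twoCS_of_nilpotent G hfg hva)⟩

end Pool.Agent.Results.MP_be5e04_al.TwoIdeals
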